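import Pool.Agent.Mg.Ffd75d0.Ge1a9a2

set_option autoImplicit false

namespace Pool.Agent.Results.MP_fd75d0_co.OddDegree

/-- The complete graph on two vertices is the only regular Steinhaus graph of odd degree. -/
theorem result :
    ∀ (n : ℕ) (s : ℕ → ZMod 2) (d : ℕ), Odd d →
      (∀ v : Fin (n + 1),
        ((SimpleGraph.fromRel (fun u w : Fin (n + 1) =>
            u < w ∧
              (∑ k ∈ Finset.range (u.val + 1),
                  ((Nat.choose u.val k : ℕ) : ZMod 2) * s (w.val - k - 1)) = 1)).neighborSet v).ncard = d) →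
      n = 1 ∧ s 0 = 1 := by
  intro n s d hd h
  refine Pool.Agent.MP_fd75d0_co.odd_regular (d : ℤ) (by exact_mod_cast hd) fun i hi => ?_
  rw [← h ⟨i, Nat.lt_succ_of_le hi⟩]
  exact (Pool.Agent.MP_fd75d0_co.degree_eq s n ⟨i, Nat.lt_succ_of_le hi⟩).symm

end Pool.Agent.Results.MP_fd75d0_co.OddDegree
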