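import Pool.Agent.MP_fd75d0_co.Per.Main

set_option autoImplicit false

namespace Pool.Agent.Results.MP_fd75d0_co.Periodic

/-- Dymacek's conjecture holds for long strings that are periodic outside their first and last
`j` entries. -/
theorem result :
    ∀ (n p j : ℕ) (s : ℕ → ZMod 2), 0 < p → 3 * (p + 3) * (p + j + 1) ≤ n →
      (∀ i, j ≤ i → i + p + j < n → s (i + p) = s i) →
      (∃ d : ℕ, ∀ v : Fin (n + 1),
        ((SimpleGraph.fromRel (fun u w : Fin (n + 1) =>
            u < w ∧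
              (∑ k ∈ Finset.range (u.val + 1),
                  ((Nat.choose u.val k : ℕ) : ZMod 2) * s (w.val - k - 1)) = 1)).neighborSet v).ncard = d) →
      (∀ i < n, s i = 0) ∨ (n % 3 = 0 ∧ ∀ i < n, s i = if i % 3 = 2 then 0 else 1) := by
  rintro n p j s hp hn hs ⟨d, h⟩
  refine Pool.Agent.MP_fd75d0_co.Per.periodic (d := d) (fun i hi => ?_) hp hn hs
  rw [← h ⟨i, Nat.lt_succ_of_le hi⟩]
  exact (Pool.Agent.MP_fd75d0_co.degree_eq s n ⟨i, Nat.lt_succ_of_le hi⟩).symm

end Pool.Agent.Results.MP_fd75d0_co.Periodic
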